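import Pool.Agent.Helper96.SE.Stmts

/-!
Module CFL (`MP_e361f4_lc`): conflicts of the tiles.
-/

set_option autoImplicit false

namespace Pool.Agent.Helper96.SE

open Pool.Agent.Helper31.BC (inn col)
open Pool.Agent.Helper38.MR (trv)

theorem cfl_inn {k q : ℕ} {σ : Fin k → Fin q} {v : ℕ} (hv : v < k * q) (h : inn σ v = true) :
    (⟨v, hv⟩ : Fin (k * q)) ∈ trv σ := by
  unfold inn at h
  rw [dif_pos hv] at h
  exact of_decide_eq_true h

theorem cfl_col {m l : ℕ} {χ : Fin m → Fin l} {u v : ℕ} (hu : u < m) (hv : v < m)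
    (h : col χ u = col χ v) : χ ⟨u, hu⟩ = χ ⟨v, hv⟩ := by
  unfold col at h
  rw [dif_pos hu, dif_pos hv] at h
  exact Fin.ext h

theorem st_CFL : ST_CFL := by
  intro k q l i h
  simp only [tl, Bool.and_eq_true, decide_eq_true_eq] at h
  obtain ⟨⟨⟨h1, h2⟩, h3⟩, h4⟩ := h
  have hv : (i - (k * q + k * q * l)) / 2 % (k * q) < k * q := Nat.mod_lt _ h4
  have hu : (i - (k * q + k * q * l)) / 2 / (k * q) < k * q := h3.trans hv
  refine ⟨⟨_, hu⟩, ⟨_, hv⟩, h3, ?_⟩
  intro σ χ ha hb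
  have h5 : ¬ i < k * q := by omega
  have h6 : ¬ i < k * q + k * q * l := by omega
  have h7 : ¬ i + 1 < k * q := by omega
  have h8 : ¬ i + 1 < k * q + k * q * l := by omega
  have h9 : (i + 1 - (k * q + k * q * l)) / 2 = (i - (k * q + k * q * l)) / 2 := by omega
  have h10 : ¬ (i + 1 - (k * q + k * q * l)) % 2 = 0 := by omega
  unfold asg at ha hb
  rw [if_neg h5, if_neg h6, if_pos h2] at ha
  rw [if_neg h7, if_neg h8, if_neg h10, h9, Bool.and_eq_true] at hb
  exact ⟨cfl_inn hu hb.1, cfl_inn hv hb.2, cfl_col hu hv (of_decide_eq_true ha)⟩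

end Pool.Agent.Helper96.SE
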